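import Pool.Agent.Lib.UDGConvW.Main

/-!
Unit disk graphs of clique number `w` such that in every unit square of the grid the centres lie on at
most `k` convex curves have adjacency labels of `O(k log² w + log n)` bits, with one explicit decoder
(`UDGConvW.decodeV`) for all `k`, `n`, `w` and all point sets.
-/

namespace Pool.Agent.Results.MP_b30534_lc.ConvexPerSquare

open UDGConvW

theorem result (k n w : ℕ) (K : ℤ → ℤ → Fin k → Set (EuclideanSpace ℝ (Fin 2)))
    (hK : ∀ a b i, Convex ℝ (K a b i)) (p : Fin n → EuclideanSpace ℝ (Fin 2))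
    (hp : ∀ v, ∃ i, p v ∈ frontier (K ⌊p v 0⌋ ⌊p v 1⌋ i))
    (hw : ∀ S : Finset (Fin n), (∀ u ∈ S, ∀ v ∈ S, dist (p u) (p v) ≤ 1) → S.card ≤ w) :
    ∃ lab : Fin n → List Bool,
      (∀ v, (lab v).length ≤
        180000 * k * (Nat.log 2 w + 1) ^ 2 + 54 * (Nat.log 2 n + 1)) ∧
      ∀ u v, (decodeV (lab u) (lab v) = true ↔ dist (p u) (p v) ≤ 1) :=
  mainV hK p hp hw

end Pool.Agent.Results.MP_b30534_lc.ConvexPerSquare
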