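import Pool.Agent.Lib.UDGClique.Final

/-!
# MP_b30534_lc: labels of `O(ω^(1/3) log² ω + log n)` bits for unit disk graphs of clique number `ω`

For all points of the plane `p₁, …, p_n` such that every set of points with pairwise distances at most
`1` has at most `w` members, and every `c` with `4 w ≤ c³`, there are bit strings of length at most
`3000000 c (log₂ c + 1)² + 54 (log₂ n + 1)` from which the explicit decoder `UDGCube.decodeW` (files
`Pool/Agent/Lib/UDGClique/Defs.lean` and `Pool/Agent/Lib/UDGCube/Defs.lean`) reads off for all `u`, `v`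
whether the distance of `p_u` and `p_v` is at most `1`.
-/

namespace Pool.Agent.Results.MP_b30534_lc.CubeRoot

open UDGCube

theorem result (n w c : ℕ) (p : Fin n → EuclideanSpace ℝ (Fin 2))
    (hw : ∀ S : Finset (Fin n), (∀ u ∈ S, ∀ v ∈ S, dist (p u) (p v) ≤ 1) → S.card ≤ w)
    (hc : 4 * w ≤ c ^ 3) :
    ∃ lab : Fin n → List Bool,
      (∀ v, (lab v).length ≤
        3000000 * c * (Nat.log 2 c + 1) ^ 2 + 54 * (Nat.log 2 n + 1)) ∧
      ∀ u v, (decodeW (lab u) (lab v) = true ↔ dist (p u) (p v) ≤ 1) :=
  main_clique p hw hc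

end Pool.Agent.Results.MP_b30534_lc.CubeRoot
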