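import Pool.Agent.Lib.UDGCmp.Rank
import Pool.Agent.Lib.UDGCmp.UpperR

/-!
# MP_b30534_lc: rank queries for unit disk graphs

A label consists of integers and of lists of at most `k` integers; a rank tree
(`Pool/Agent/Lib/UDGCmp/RDefs.lean`) asks for the rank of a number of one label in a list of the other
label. For unit disk graphs on `n ≥ 2^70` vertices `t` queries with `40 t size(k) ≤ log₂ n` never
suffice, even if the tree may depend on the graph. (`UDGCmp.upper_rank`: `t + 1` queries suffice for
every graph if `n ≤ (k + 1)^t`.)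
-/

namespace Pool.Agent.Results.MP_b30534_lc.RankQueries

open UDGCmp

theorem result {n : ℕ} (hn : 2 ^ 70 ≤ n) :
    ∃ p : Fin n → EuclideanSpace ℝ (Fin 2),
      ∀ (k t : ℕ) (R : RTree), R.within t → 40 * (t * Nat.size k) ≤ Nat.log 2 n →
        ∀ lab : Fin n → Lab, (∀ v i, ((lab v).lst i).length ≤ k) →
          ¬ ∀ u v, u ≠ v → (R.eval (lab u) (lab v) = true ↔ dist (p u) (p v) ≤ 1) :=
  main_rank hn

end Pool.Agent.Results.MP_b30534_lc.RankQueries
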